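import Pool.Agent.H13.G4.Free
import Pool.Agent.H65.G4.Min

/-!
# Oriented planar graphs (directed triangles allowed): minimal counterexample

* `P3 T D l` : an oriented graph carried by a disc.
* `MC3` : minimal counterexample; `M3` : the same with a full carrier: every edge of the disc is an
  arc, every vertex is real, every triangle is a face or the outer one, no inner source or sink.
-/

set_option autoImplicit false

namespace Pool.Agent.H13.G3

open Relation Pool.Agent.H13.DA Pool.Agent.H72.G4 Pool.Agent.H21.G4 Pool.Agent.H13.G4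
open Pool.Agent.H65.G4 (re_mono nr_lt out_on)

variable {V : Type*}

/-- an oriented graph carried by a disc -/
structure P3 (T : Finset (V × V × V)) (D : V → V → Prop) (l : List V) : Prop where
  disc : Disc T
  bd : IsBd T l
  adj : ∀ x y, D x y → Adj T x y
  asymm : ∀ x y, D x y → ¬ D y x

/-- minimal counterexample -/
structure MC3 (T : Finset (V × V × V)) (D : V → V → Prop) (a b c : V) : Prop where
  pl : P3 T D [a, b, c]
  out : Out D a b c
  bad : ¬ Solv D (Tr a b c)
  min1 : ∀ (T' : Finset (V × V × V)) (D' : V → V → Prop) (a' b' c' : V), P3 T' D' [a', b', c'] →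
    Out D' a' b' c' → nr D' < nr D → Solv D' (Tr a' b' c')
  min2 : ∀ (T' : Finset (V × V × V)) (D' : V → V → Prop) (a' b' c' : V), P3 T' D' [a', b', c'] →
    Out D' a' b' c' → nr D' ≤ nr D → na D < na D' → Solv D' (Tr a' b' c')
  min3 : ∀ (T' : Finset (V × V × V)) (D' : V → V → Prop) (a' b' c' : V), P3 T' D' [a', b', c'] →
    Out D' a' b' c' → nr D' ≤ nr D → na D ≤ na D' → T'.card < T.card → Solv D' (Tr a' b' c')

variable [DecidableEq V] {T : Finset (V × V × V)} {D D' : V → V → Prop} {a b c : V}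

theorem P3.re_mem {l : List V} (h : P3 T D l) {x : V} (hx : Re D x) : x ∈ verts T := by
  obtain ⟨y, hy | hy⟩ := hx
  · exact (verts_adj h.disc.cx).2 ⟨y, h.adj _ _ hy⟩
  · exact (verts_adj h.disc.cx).2 ⟨y, (h.adj _ _ hy).symm⟩

theorem P3.re_fin {l : List V} (h : P3 T D l) : {x | Re D x}.Finite :=
  (verts T).finite_toSet.subset fun _ hx => h.re_mem hx

theorem P3.ar_fin {l : List V} (h : P3 T D l) : {p : V × V | D p.1 p.2}.Finite := by
  refine (h.re_fin.prod h.re_fin).subset ?_
  rintro ⟨x, y⟩ hxy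
  exact ⟨⟨y, Or.inl hxy⟩, ⟨x, Or.inr hxy⟩⟩

theorem P3.na_le {l : List V} (h : P3 T D l) : na D ≤ nr D * nr D := by
  unfold na nr
  rw [← Set.ncard_prod]
  refine Set.ncard_le_ncard ?_ (h.re_fin.prod h.re_fin)
  rintro ⟨x, y⟩ hxy
  exact ⟨⟨y, Or.inl hxy⟩, ⟨x, Or.inr hxy⟩⟩

/-- if the theorem fails there is a minimal counterexample -/
theorem exists_MC3 (h : ¬ ∀ (T : Finset (V × V × V))
    (D : V → V → Prop) (a b c : V), P3 T D [a, b, c] → Out D a b c → Solv D (Tr a b c)) :
    ∃ (T : Finset (V × V × V)) (D : V → V → Prop) (a b c : V), MC3 T D a b c := by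
  classical
  have key : ∀ (N : ℕ) (T : Finset (V × V × V)) (D : V → V → Prop) (a b c : V),
      ∀ (A : ℕ), nr D * nr D - na D ≤ A → ∀ (B : ℕ), T.card ≤ B → nr D ≤ N →
      P3 T D [a, b, c] → Out D a b c → ¬ Solv D (Tr a b c) →
      ∃ (T : Finset (V × V × V)) (D : V → V → Prop) (a b c : V), MC3 T D a b c := by
    intro N
    induction N using Nat.strong_induction_on with
    | _ N ihN =>
      intro T D a b c A
      induction A using Nat.strong_induction_on generalizing T D a b c with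
      | _ A ihA =>
        intro hA B
        induction B using Nat.strong_induction_on generalizing T D a b c with
        | _ B ihB =>
          intro hB hN hP hO hS
          by_contra hcon
          apply hcon
          refine ⟨T, D, a, b, c, hP, hO, hS, ?_, ?_, ?_⟩
          · intro T' D' a' b' c' hP' hO' hlt
            by_contra hS'
            exact hcon (ihN (nr D') (by omega) T' D' a' b' c' _ le_rfl _ le_rfl le_rfl hP' hO' hS')
          · intro T' D' a' b' c' hP' hO' hle hlt
            by_contra hS'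
            rcases lt_or_eq_of_le hle with h1 | h1
            · exact hcon (ihN (nr D') (by omega) T' D' a' b' c' _ le_rfl _ le_rfl le_rfl
                hP' hO' hS')
            · have h2 := hP.na_le
              have h3 := hP'.na_le
              rw [h1] at h3
              exact hcon (ihA (nr D' * nr D' - na D') (by rw [h1]; omega) T' D' a' b' c' le_rfl
                _ le_rfl (by omega) hP' hO' hS')
          · intro T' D' a' b' c' hP' hO' hle hge hlt
            by_contra hS'
            rcases lt_or_eq_of_le hle with h1 | h1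
            · exact hcon (ihN (nr D') (by omega) T' D' a' b' c' _ le_rfl _ le_rfl le_rfl
                hP' hO' hS')
            · exact hcon (ihB T'.card (by omega) T' D' a' b' c' (by rw [h1]; omega) le_rfl
                (by omega) hP' hO' hS')
  push Not at h
  obtain ⟨T, D, a, b, c, h1, h2, h3⟩ := h
  exact key _ T D a b c _ le_rfl _ le_rfl le_rfl h1 h2 h3

theorem pl_sub3 {l : List V} (h : P3 T D l) (hD : ∀ x y, D' x y → D x y) : P3 T D' l where
  disc := h.disc
  bd := h.bd
  adj := fun x y hxy => h.adj x y (hD x y hxy)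
  asymm := fun x y hxy hyx => h.asymm x y (hD x y hxy) (hD y x hyx)

theorem del_solv3 (h : MC3 T D a b c) {v : V} (hv : Re D v) (hva : v ≠ a) (hvb : v ≠ b)
    (hvc : v ≠ c) : Solv (H21.G4.Del D v) (Tr a b c) := by
  refine h.min1 T (H21.G4.Del D v) a b c (pl_sub3 h.pl fun x y hxy => hxy.1) ?_
    (nr_lt h.pl.re_fin (fun x y hxy => hxy.1) hv ?_)
  · obtain ⟨h1, h2, h3⟩ := h.out
    refine ⟨?_, ?_, ?_⟩
    · exact h1.imp (fun h => ⟨h, hva.symm, hvb.symm⟩) fun h => ⟨h, hvb.symm, hva.symm⟩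
    · exact h2.imp (fun h => ⟨h, hvb.symm, hvc.symm⟩) fun h => ⟨h, hvc.symm, hvb.symm⟩
    · exact h3.imp (fun h => ⟨h, hvc.symm, hva.symm⟩) fun h => ⟨h, hva.symm, hvc.symm⟩
  · rintro ⟨y, hy | hy⟩
    · exact hy.2.1 rfl
    · exact hy.2.2 rfl

/-- **M2**: no inner source -/
theorem no_source3 (h : MC3 T D a b c) {v : V} (hv : Re D v) (hva : v ≠ a) (hvb : v ≠ b)
    (hvc : v ≠ c) : ∃ x, D x v := by
  by_contra hcon
  push Not at hcon
  refine h.bad (solv_source ?_ hcon (del_solv3 h hv hva hvb hvc))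
  rintro (rfl | rfl | rfl) <;> simp_all

/-- **M2**: no inner sink -/
theorem no_sink3 (h : MC3 T D a b c) {v : V} (hv : Re D v) (hva : v ≠ a) (hvb : v ≠ b)
    (hvc : v ≠ c) : ∃ x, D v x := by
  by_contra hcon
  push Not at hcon
  refine h.bad (solv_sink ?_ hcon (del_solv3 h hv hva hvb hvc))
  rintro (rfl | rfl | rfl) <;> simp_all

/-- **M1**: the inside of a real 3-cycle different from the outer triangle contains no real
vertex -/
theorem real_tri3 (h : MC3 T D a b c) {x y z : V} (hxy : Ar D x y) (hyz : Ar D y z)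
    (hzx : Ar D z x) (hout : ∃ v ∈ [a, b, c], v ∉ [x, y, z]) :
    ∃ X, X ⊆ T ∧ Disc X ∧ (IsBd X [x, y, z] ∨ IsBd X [z, y, x]) ∧
      (∀ v, v ∈ verts X → v ∈ verts (T \ X) → v ∈ [x, y, z]) ∧
      ∀ v, v ∈ verts X → Re D v → v ∈ [x, y, z] := by
  have hirr : ∀ x, ¬ D x x := fun x hx => h.pl.asymm x x hx hx
  have ne : ∀ {x y : V}, Ar D x y → x ≠ y := by
    rintro x y (h1 | h1) rfl
    · exact hirr _ h1
    · exact hirr _ h1
  have adjT : ∀ {x y : V}, Ar D x y → Adj T x y := by
    rintro x y (h1 | h1)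
    · exact h.pl.adj _ _ h1
    · exact (h.pl.adj _ _ h1).symm
  have n1 := ne hxy
  have n2 := ne hyz
  have n3 := ne hzx
  have hnd : [x, y, z].Nodup := by
    simp [n1, n2, n3.symm]
  have hZ : ∀ p q, Cyc [x, y, z] p q → Adj T p q := by
    intro p q hpq
    simp only [Cyc, Nx, List.cons_append, List.nil_append] at hpq
    rcases hpq with ⟨rfl, rfl⟩ | ⟨rfl, rfl⟩ | ⟨rfl, rfl⟩ | hpq
    · exact adjT hxy
    · exact adjT hyz
    · exact adjT hzx
    · exact absurd hpq id
  obtain ⟨X, hXT, hX, hb, hm⟩ := jordan h.pl.disc hnd (by simp) hZ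
  refine ⟨X, hXT, hX, ?_, hm, ?_⟩
  · exact hb.imp id fun hb => by simpa using hb
  intro w hw hwr
  by_contra hwZ
  have hT := h.pl.disc.cx
  have hTX := sdiff_isCx hT hX.cx
  -- directed edges on the boundary of `X` are on the cycle
  have bdX : ∀ p q, Bd X p q → p ∈ [x, y, z] ∧ q ∈ [x, y, z] := by
    intro p q hpq
    rcases hb with hb | hb
    · exact cyc_mem ((hb.iff p q).1 hpq)
    · have := cyc_mem (H65.G4.cyc3r.1 ((hb.iff p q).1 hpq))
      exact ⟨this.2, this.1⟩
  -- edges between vertices of the cycle are edges of `X`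
  have adjZ : ∀ p q, p ∈ [x, y, z] → q ∈ [x, y, z] → p ≠ q → Adj X p q := by
    intro p q hp hq hpq
    have h1 : ∀ p q, Cyc [x, y, z] p q → Adj X p q := by
      intro p q hpq
      rcases hb with hb | hb
      · exact Or.inl ((hb.iff p q).2 hpq).1
      · exact Or.inr ((hb.iff q p).2 (H65.G4.cyc3r.2 hpq)).1
    rcases H65.G4.cyc3 hp hq hpq with h2 | h2
    · exact h1 _ _ h2
    · exact (h1 _ _ h2).symm
  -- the outer vertices are not strictly inside
  have hS1 : ∀ v, v ∈ [a, b, c] → v ∈ verts (T \ X) ∨ v ∈ [x, y, z] := by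
    intro v hv
    obtain ⟨⟨u, hu⟩, _⟩ := mem_cyc hv
    have hbd := (h.pl.bd.iff v u).2 hu
    obtain ⟨⟨t, ht⟩, hno⟩ := hbd
    by_cases htX : (v, u, t) ∈ X
    · exact Or.inr (bdX v u ⟨⟨t, htX⟩, fun s hs => hno s (hXT hs)⟩).1
    · exact Or.inl (vert1 (Finset.mem_sdiff.2 ⟨ht, htX⟩))
  -- arcs
  have arcs : ∀ p q, Adj T p q → (p ∈ verts (T \ X) ∧ q ∈ verts (T \ X)) ∨ Adj X p q := by
    rintro p q (⟨r, hr⟩ | ⟨r, hr⟩)
    · by_cases hrX : (p, q, r) ∈ X
      · exact Or.inr (Or.inl ⟨r, hrX⟩)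
      · have := Finset.mem_sdiff.2 ⟨hr, hrX⟩
        exact Or.inl ⟨vert1 this, vert2 hTX this⟩
    · by_cases hrX : (q, p, r) ∈ X
      · exact Or.inr (Or.inr ⟨r, hrX⟩)
      · have := Finset.mem_sdiff.2 ⟨hr, hrX⟩
        exact Or.inl ⟨vert2 hTX this, vert1 this⟩
  have adjv : ∀ p q, Adj X p q → p ∈ verts X ∧ q ∈ verts X := by
    rintro p q (⟨r, hr⟩ | ⟨r, hr⟩)
    · exact ⟨vert1 hr, vert2 hX.cx hr⟩
    · exact ⟨vert2 hX.cx hr, vert1 hr⟩
  let S1 : V → Prop := fun v => v ∈ verts (T \ X) ∨ v ∈ [x, y, z]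
  let S2 : V → Prop := fun v => v ∈ verts X
  have hs1 : Solv (On D S1) (Tr a b c) := by
    refine h.min1 T (On D S1) a b c (pl_sub3 h.pl fun x y hxy => hxy.1)
      (out_on h.out (hS1 a (by simp)) (hS1 b (by simp)) (hS1 c (by simp)))
      (nr_lt h.pl.re_fin (fun x y hxy => hxy.1) hwr ?_)
    rintro ⟨u, hu | hu⟩
    · rcases hu.2.1 with h1 | h1
      · exact hwZ (hm w hw h1)
      · exact hwZ h1
    · rcases hu.2.2 with h1 | h1
      · exact hwZ (hm w hw h1)
      · exact hwZ h1
  have hZX : ∀ v, v ∈ [x, y, z] → v ∈ verts X := by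
    intro v hv
    simp only [List.mem_cons, List.not_mem_nil, or_false] at hv
    rcases hv with rfl | rfl | rfl
    · exact (adjv _ _ (adjZ v y (by simp) (by simp) n1)).1
    · exact (adjv _ _ (adjZ v z (by simp) (by simp) n2)).1
    · exact (adjv _ _ (adjZ v x (by simp) (by simp) n3)).1
  have hadj2 : ∀ p q, On D S2 p q → Adj X p q := by
    intro p q hpq
    rcases arcs p q (h.pl.adj p q hpq.1) with h1 | h1
    · exact adjZ p q (hm p hpq.2.1 h1.1) (hm q hpq.2.2 h1.2) (ne (Or.inl hpq.1))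
    · exact h1
  have hlt : nr (On D S2) < nr D := by
    obtain ⟨v, hv, hvZ⟩ := hout
    have hvr : Re D v := by
      obtain ⟨h1, h2, h3⟩ := h.out
      simp only [List.mem_cons, List.not_mem_nil, or_false] at hv
      rcases hv with rfl | rfl | rfl
      · exact ⟨b, h1⟩
      · exact ⟨c, h2⟩
      · exact ⟨a, h3⟩
    refine nr_lt h.pl.re_fin (fun x y hxy => hxy.1) hvr ?_
    have hvX : v ∉ verts X := by
      intro hvX
      rcases hS1 v hv with h1 | h1
      · exact hvZ (hm v hvX h1)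
      · exact hvZ h1
    rintro ⟨u, hu | hu⟩
    · exact hvX hu.2.1
    · exact hvX hu.2.2
  have hs2 : Solv (On D S2) (Tr x y z) := by
    have has : ∀ x y, On D S2 x y → ¬ On D S2 y x := fun x y h1 h2 => h.pl.asymm x y h1.1 h2.1
    rcases hb with hb | hb
    · exact h.min1 X (On D S2) x y z ⟨hX, hb, hadj2, has⟩
        (out_on ⟨hxy, hyz, hzx⟩ (hZX x (by simp)) (hZX y (by simp)) (hZX z (by simp))) hlt
    · have := h.min1 X (On D S2) z y x ⟨hX, by simpa using hb, hadj2, has⟩
        (out_on ⟨hyz.symm, hxy.symm, hzx.symm⟩ (hZX z (by simp)) (hZX y (by simp))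
          (hZX x (by simp))) hlt
      have e : (Tr z y x : V → Prop) = Tr x y z := by
        funext v
        simp only [Tr]
        exact propext ⟨fun h => by tauto, fun h => by tauto⟩
      rwa [e] at this
  refine h.bad (glue (S1 := S1) (S2 := S2) (S' := Tr x y z) ?_ ?_ ?_ ?_ hs1 hs2)
  · intro p q hpq
    rcases arcs p q (h.pl.adj p q hpq) with h1 | h1
    · exact Or.inl ⟨Or.inl h1.1, Or.inl h1.2⟩
    · exact Or.inr (adjv p q h1)
  · rintro v (rfl | rfl | rfl)
    · exact hS1 _ (by simp)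
    · exact hS1 _ (by simp)
    · exact hS1 _ (by simp)
  · rintro v (rfl | rfl | rfl)
    · exact Or.inr (by simp)
    · exact Or.inr (by simp)
    · exact Or.inr (by simp)
  · intro v h1 h2
    have h3 : v ∈ [x, y, z] := by
      rcases h1 with h1 | h1
      · exact hm v h2 h1
      · exact h1
    simpa [Tr] using h3

/-- **M1** if every vertex of the carrier is real, a real 3-cycle different from the outer one is
a face -/
theorem real_face3 (h : MC3 T D a b c) (hre : ∀ v ∈ verts T, Re D v) {x y z : V} (hxy : Ar D x y)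
    (hyz : Ar D y z) (hzx : Ar D z x) (hout : ∃ v ∈ [a, b, c], v ∉ [x, y, z]) :
    (x, y, z) ∈ T ∨ (y, x, z) ∈ T := by
  obtain ⟨X, hXT, hX, hb, -, hv⟩ := real_tri3 h hxy hyz hzx hout
  have hcx := hX.cx
  have hsub : verts X ⊆ {x, y, z} := by
    intro v hv1
    have := hv v hv1 (hre v (verts_mono hXT hv1))
    simpa using this
  have key : ∀ p q r : V, IsBd X [p, q, r] → verts X ⊆ {p, q, r} → (p, q, r) ∈ X := by
    intro p q r hb hs
    have h1 : Bd X p q := (hb.iff p q).2 (Or.inl ⟨rfl, rfl⟩)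
    obtain ⟨⟨t, ht⟩, hno⟩ := h1
    have h2 : Bd X q r := (hb.iff q r).2 (Or.inr (Or.inl ⟨rfl, rfl⟩))
    have ht3 := vert3 hcx ht
    obtain ⟨e1, e2, e3⟩ := cx_ne hcx ht
    have := hs ht3
    simp only [Finset.mem_insert, Finset.mem_singleton] at this
    rcases this with e | e | e
    · exact absurd e e3
    · exact absurd e.symm e2
    · rw [← e]
      exact ht
  rcases hb with hb | hb
  · exact Or.inl (hXT (key x y z hb hsub))
  · have h1 : (z, y, x) ∈ X := key z y x hb fun v hv1 => by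
      have := hsub hv1
      simp only [Finset.mem_insert, Finset.mem_singleton] at this ⊢
      tauto
    exact Or.inr (hXT (hcx.rot h1))

/-- **M3**: a minimal counterexample has no fake vertices -/
theorem no_fake3 [Infinite V] {D : V → V → Prop} {a b c : V} (h : MC3 T D a b c) {f : V}
    (hf : f ∈ verts T) : Re D f := by
  by_contra hre
  have hD := h.pl.disc
  have hT := hD.cx
  have hfl : f ∉ [a, b, c] := by
    intro hm
    obtain ⟨o1, o2, o3⟩ := h.out
    simp only [List.mem_cons, List.not_mem_nil, or_false] at hm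
    rcases hm with rfl | rfl | rfl
    · exact hre ⟨_, o1⟩
    · exact hre ⟨_, o2⟩
    · exact hre ⟨_, o3⟩
  obtain ⟨g, hg, hc⟩ := free_nbr hD hf
  obtain ⟨T', t1, t2, t3, t4, _, t6⟩ := fan_disc hD h.pl.bd hfl hg hc
  refine h.bad (h.min3 T' D a b c ⟨t1, t2 _ h.pl.bd, ?_, h.pl.asymm⟩ h.out le_rfl
    le_rfl (by omega))
  intro x y hxy
  rw [t4]
  refine ⟨?_, ?_, Or.inl (h.pl.adj x y hxy)⟩
  · rintro rfl
    exact hre ⟨y, Or.inl hxy⟩
  · rintro rfl
    exact hre ⟨x, Or.inr hxy⟩


/-- a minimal counterexample with a full carrier -/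
structure M3 (T : Finset (V × V × V)) (D : V → V → Prop) (a b c : V) : Prop where
  pl : P3 T D [a, b, c]
  ar : ∀ x y, Ar D x y ↔ Adj T x y
  bad : ¬ Solv D (Tr a b c)
  fc : ∀ x y z, Ar D x y → Ar D y z → Ar D z x →
    Face T x y z ∨ (Tr a b c x ∧ Tr a b c y ∧ Tr a b c z)
  io : ∀ v, v ∈ verts T → ¬ Tr a b c v → (∃ u, D u v) ∧ ∃ u, D v u
  min : ∀ (T' : Finset (V × V × V)) (D' : V → V → Prop) (a' b' c' : V), P3 T' D' [a', b', c'] →
    Out D' a' b' c' → nr D' < nr D → Solv D' (Tr a' b' c')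

/-- the digraph with one more arc -/
def Add (D : V → V → Prop) (x y : V) (u w : V) : Prop := D u w ∨ (u = x ∧ w = y)

theorem full3 [Infinite V] (h : MC3 T D a b c) {x y : V} (hxy : Adj T x y) : Ar D x y := by
  by_contra hno
  have hT := h.pl.disc.cx
  have hx := no_fake3 h (adj_vert hT hxy).1
  have hy := no_fake3 h (adj_vert hT hxy).2.1
  have hne := (adj_vert hT hxy).2.2
  have hre : ∀ z, Re (Add D x y) z ↔ Re D z := by
    intro z
    constructor
    · rintro ⟨u, (hu | ⟨rfl, rfl⟩) | (hu | ⟨rfl, rfl⟩)⟩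
      · exact ⟨u, Or.inl hu⟩
      · exact hx
      · exact ⟨u, Or.inr hu⟩
      · exact hy
    · rintro ⟨u, hu | hu⟩
      · exact ⟨u, Or.inl (Or.inl hu)⟩
      · exact ⟨u, Or.inr (Or.inl hu)⟩
  have hP : P3 T (Add D x y) [a, b, c] := by
    refine ⟨h.pl.disc, h.pl.bd, ?_, ?_⟩
    · rintro u w (hu | ⟨rfl, rfl⟩)
      · exact h.pl.adj u w hu
      · exact hxy
    · rintro u w (hu | ⟨rfl, rfl⟩) (hw | ⟨e1, e2⟩)
      · exact h.pl.asymm u w hu hw
      · subst e1 e2
        exact hno (Or.inr hu)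
      · exact hno (Or.inr hw)
      · exact hne e2
  have hO : Out (Add D x y) a b c := by
    obtain ⟨h1, h2, h3⟩ := h.out
    exact ⟨h1.imp Or.inl Or.inl, h2.imp Or.inl Or.inl, h3.imp Or.inl Or.inl⟩
  have hn : nr (Add D x y) = nr D := by
    unfold nr
    congr 1
    ext z
    exact hre z
  have hlt : na D < na (Add D x y) := by
    refine Set.ncard_lt_ncard ?_ hP.ar_fin
    refine ⟨fun p hp => Or.inl hp, fun hsub => ?_⟩
    have : (x, y) ∈ {p : V × V | D p.1 p.2} := hsub (Or.inr ⟨rfl, rfl⟩)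
    exact hno (Or.inl this)
  have hS := h.min2 T (Add D x y) a b c hP hO hn.le hlt
  apply h.bad
  intro O hO1 hO2
  -- the new arc is not inside the outer triangle
  have hnt : ¬ (Tr a b c x ∧ Tr a b c y) := by
    rintro ⟨h1, h2⟩
    obtain ⟨k1, k2, k3⟩ := h.out
    rcases h1 with rfl | rfl | rfl <;> rcases h2 with rfl | rfl | rfl
    · exact hne rfl
    · exact hno k1
    · exact hno k3.symm
    · exact hno k1.symm
    · exact hne rfl
    · exact hno k2
    · exact hno k3
    · exact hno k2.symm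
    · exact hne rfl
  obtain ⟨O', e1, e2, e3⟩ := hS O hO1 (by
    rintro u w hu hw (k | ⟨rfl, rfl⟩)
    · exact hO2 u w hu hw k
    · exact absurd ⟨hu, hw⟩ hnt)
  exact ⟨O', e1, fun u w k => e2 u w (Or.inl k), e3⟩

/-- **the minimal counterexample with a full carrier** -/
theorem exists_M3 [Infinite V] (h : ¬ ∀ (T : Finset (V × V × V))
    (D : V → V → Prop) (a b c : V), P3 T D [a, b, c] → Out D a b c → Solv D (Tr a b c)) :
    ∃ (T : Finset (V × V × V)) (D : V → V → Prop) (a b c : V), M3 T D a b c := by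
  obtain ⟨T, D, a, b, c, h⟩ := exists_MC3 h
  have hre : ∀ v, v ∈ verts T → Re D v := fun v hv => no_fake3 h hv
  have hnd := h.pl.bd.nodup
  have hT := h.pl.disc.cx
  have har : ∀ x y, Ar D x y → Adj T x y := by
    rintro x y (k | k)
    · exact h.pl.adj _ _ k
    · exact (h.pl.adj _ _ k).symm
  refine ⟨T, D, a, b, c, h.pl, fun x y => ⟨har x y, fun k => full3 h k⟩, h.bad, ?_, ?_, h.min1⟩
  · intro x y z h1 h2 h3
    by_cases hout : ∃ v ∈ [a, b, c], v ∉ [x, y, z]
    · left
      rcases real_face3 h hre h1 h2 h3 hout with k | k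
      · exact Or.inl k
      · exact Or.inr (hT.rot k)
    · right
      push Not at hout
      have n1 := (adj_vert hT (har _ _ h1)).2.2
      have n2 := (adj_vert hT (har _ _ h2)).2.2
      have n3 := (adj_vert hT (har _ _ h3)).2.2
      have e1 := hout a (by simp)
      have e2 := hout b (by simp)
      have e3 := hout c (by simp)
      simp only [List.mem_cons, List.not_mem_nil, or_false] at e1 e2 e3
      simp only [List.nodup_cons, List.mem_cons, List.not_mem_nil, or_false, not_or,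
        not_false_eq_true, List.nodup_nil, and_true] at hnd
      obtain ⟨⟨m1, m2⟩, m3⟩ := hnd
      unfold Tr
      rcases e1 with rfl | rfl | rfl <;> rcases e2 with rfl | rfl | rfl <;>
        rcases e3 with rfl | rfl | rfl <;> simp_all
  · intro v hv hvt
    unfold Tr at hvt
    push Not at hvt
    obtain ⟨k1, k2, k3⟩ := hvt
    obtain ⟨x, hx⟩ := no_source3 h (hre v hv) k1 k2 k3
    obtain ⟨y, hy⟩ := no_sink3 h (hre v hv) k1 k2 k3
    exact ⟨⟨x, hx⟩, ⟨y, hy⟩⟩

end Pool.Agent.H13.G3
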