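import Pool.Agent.H13.G3.Base
import Pool.Agent.H72.G4.Contr

/-!
# No contractible arc (COVER)
-/

set_option autoImplicit false

namespace Pool.Agent.H13.G3

open Relation Pool.Agent.H13.DA Pool.Agent.H72.G4 Pool.Agent.H21.G4 Pool.Agent.H13.G4

variable {V : Type*} [DecidableEq V] {T : Finset (V × V × V)} {D : V → V → Prop} {a b c : V}

theorem M3.out (h : M3 T D a b c) : Out D a b c := by
  have key : ∀ x y, Cyc [a, b, c] x y → Ar D x y := by
    intro x y hxy
    obtain ⟨k, _⟩ := bd_cyc h.pl.bd hxy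
    exact (h.ar x y).2 (Or.inl k)
  refine ⟨key a b ?_, key b c ?_, key c a ?_⟩ <;> rw [G4.cyc3]
  · exact Or.inl ⟨rfl, rfl⟩
  · exact Or.inr (Or.inl ⟨rfl, rfl⟩)
  · exact Or.inr (Or.inr (Or.inl ⟨rfl, rfl⟩))

theorem M3.ne (h : M3 T D a b c) {x y : V} (hxy : Ar D x y) : x ≠ y :=
  (adj_vert h.pl.disc.cx ((h.ar x y).1 hxy)).2.2

theorem M3.mem (h : M3 T D a b c) {x y : V} (hxy : Ar D x y) : x ∈ verts T ∧ y ∈ verts T :=
  ⟨(adj_vert h.pl.disc.cx ((h.ar x y).1 hxy)).1, (adj_vert h.pl.disc.cx ((h.ar x y).1 hxy)).2.1⟩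

/-- a common neighbour of the ends of an edge with an inner end is an apex of the edge -/
theorem M3.common (h : M3 T D a b c) {x y p r u : V} (hy : ¬ Tr a b c y)
    (h1 : (x, y, p) ∈ T) (h2 : (y, x, r) ∈ T) (hx : Ar D x u) (hyu : Ar D y u) :
    u = p ∨ u = r := by
  have cx := h.pl.disc.cx
  rcases h.fc x y u ((h.ar x y).2 (Or.inl ⟨p, h1⟩)) hyu (ar_symm hx) with (k | k) | ⟨_, k, _⟩
  · exact Or.inl (cx.uniq k h1)
  · exact Or.inr (cx.uniq (cx.rot (cx.rot k)) h2)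
  · exact absurd k hy

theorem re_fin (h : M3 T D a b c) : {x | Re D x}.Finite := h.pl.re_fin

/-- **No contractible edge** (COVER): every edge with an inner end is long or on a directed
triangle on at least one side. -/
theorem no_contract3 [Infinite V] (h : M3 T D a b c) {x y p r : V} (hy : ¬ Tr a b c y)
    (h1 : (x, y, p) ∈ T) (h2 : (y, x, r) ∈ T)
    (sp : D p x ↔ D p y) (sr : D r x ↔ D r y) : False := by
  have cx := h.pl.disc.cx
  have hxy : Ar D x y := (h.ar x y).2 (Or.inl ⟨p, h1⟩)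
  have hyr : Re D y := (ar_re hxy).2
  have asm := h.pl.asymm
  have hyv : y ∈ verts T := (h.mem hxy).2
  have hyl : y ∉ [a, b, c] := by
    intro k
    apply hy
    simpa [Tr] using k
  have hyx : Adj T y x := Or.inr ⟨p, h1⟩
  have xy : x ≠ y := h.ne hxy
  have com : ∀ u, Ar D x u → Ar D y u → (D u x ↔ D u y) := by
    intro u hu1 hu2
    rcases h.common hy h1 h2 hu1 hu2 with rfl | rfl
    · exact sp
    · exact sr
  obtain ⟨T', d1, d2, d3, d4⟩ := fanT T [a, b, c] y x h.pl.disc h.pl.bd hyv hyl hyx (by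
    intro m hm1 hm2 hm3
    rcases h.fc y x m (ar_symm hxy) ((h.ar x m).2 hm3) (ar_symm ((h.ar y m).2 hm1)) with
      k | ⟨k, _⟩
    · exact k
    · exact absurd k hy)
  have hT' : P3 T' (Ct D y x) [a, b, c] := by
    refine ⟨d1, d2 _ h.pl.bd, ?_, ?_⟩
    · rintro u w ⟨hu, hw, huw, k | ⟨rfl, k⟩ | ⟨rfl, k⟩⟩
      · exact (d4 u w).2 (Or.inl ⟨h.pl.adj _ _ k, hu, hw⟩)
      · exact (d4 u w).2 (Or.inr (Or.inl ⟨rfl, h.pl.adj _ _ k, huw.symm⟩))
      · exact (d4 u w).2 (Or.inr (Or.inr ⟨rfl, (h.pl.adj _ _ k).symm, huw⟩))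
    · rintro u w ⟨hu, hw, huw, k⟩ ⟨_, _, _, k'⟩
      rcases k with k | ⟨rfl, k⟩ | ⟨rfl, k⟩
      · rcases k' with k' | ⟨rfl, k'⟩ | ⟨rfl, k'⟩
        · exact asm _ _ k k'
        · exact asm _ _ k' ((com u (Or.inr k) (Or.inl k')).1 k)
        · exact asm _ _ k ((com w (Or.inl k) (Or.inr k')).2 k')
      · rcases k' with k' | ⟨rfl, k'⟩ | ⟨_, k'⟩
        · exact asm _ _ k ((com w (Or.inr k') (Or.inl k)).1 k')
        · exact huw rfl
        · exact asm _ _ k k'
      · rcases k' with k' | ⟨_, k'⟩ | ⟨rfl, k'⟩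
        · exact asm _ _ k' ((com u (Or.inl k') (Or.inr k)).2 k)
        · exact asm _ _ k' k
        · exact huw rfl
  have hne : ∀ u w, Tr a b c u → Tr a b c w → Ar D u w → Ar (Ct D y x) u w := by
    intro u w hu hw huw
    have e1 : u ≠ y := fun k => hy (k ▸ hu)
    have e2 : w ≠ y := fun k => hy (k ▸ hw)
    have e3 : u ≠ w := h.ne huw
    rcases huw with k | k
    · exact Or.inl ⟨e1, e2, e3, Or.inl k⟩
    · exact Or.inr ⟨e2, e1, e3.symm, Or.inl k⟩
  have ta : Tr a b c a := Or.inl rfl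
  have tb : Tr a b c b := Or.inr (Or.inl rfl)
  have tc : Tr a b c c := Or.inr (Or.inr rfl)
  have hO : Out (Ct D y x) a b c := ⟨hne _ _ ta tb h.out.1, hne _ _ tb tc h.out.2.1,
    hne _ _ tc ta h.out.2.2⟩
  have hs := h.min T' _ a b c hT' hO (nr_ren (re_fin h) hyr hxy)
  have hout : ∀ u w, Tr a b c u → Tr a b c w → u ≠ w → Ar D u w := by
    obtain ⟨o1, o2, o3⟩ := h.out
    rintro u w (rfl | rfl | rfl) (rfl | rfl | rfl) huw
    · exact absurd rfl huw
    · exact o1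
    · exact ar_symm o3
    · exact ar_symm o1
    · exact absurd rfl huw
    · exact o2
    · exact o3
    · exact ar_symm o2
    · exact absurd rfl huw
  refine h.bad (solv_contract xy.symm hy asm ?_ hs)
  intro z hx hz hzx
  have hxz : Ar D x z := hout x z hx hz hzx.symm
  constructor
  · intro k
    rcases hxz with k' | k'
    · exact k'
    · exact absurd ((com z (Or.inr k') (Or.inl k)).1 k') (asm _ _ k)
  · intro k
    exact (com z hxz (Or.inr k)).2 k

end Pool.Agent.H13.G3
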