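import Pool.Agent.H13.G4.Count
import Pool.Agent.H96.G4.Chg

/-!
# Counting for oriented triangulated discs (directed triangles allowed)

`Cv D x y z` : the edge `x y` is covered by the apex `z` (the triangle is directed, or `z` is its
mid vertex).  `s3 X D v` : number of source / sink corners at `v`.  `r3 X D v` : number of corners
at `v` whose opposite edge is special (covered from both sides).  `cb3 X D` : number of covered
boundary edges.  If every inner edge is covered on at least one side,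
`∑ v, (6 - 2 s3 v - r3 v) = 2 l + 6 + 2 cb3`.
-/

set_option autoImplicit false

namespace Pool.Agent.H13.G3

open Relation Pool.Agent.H13.DA Pool.Agent.H72.G4 Pool.Agent.H13.G4

variable {V : Type*}

/-- the edge `x y` is covered by `z` -/
def Cv (D : V → V → Prop) (x y z : V) : Prop := ¬ (D z x ↔ D z y)

theorem cv_symm {D : V → V → Prop} {x y z : V} : Cv D x y z ↔ Cv D y x z := by
  unfold Cv
  exact ⟨fun h h' => h h'.symm, fun h h' => h h'.symm⟩

/-- the edge `x y` is special, seen from `v` -/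
def Sp3 (X : Finset (V × V × V)) (D : V → V → Prop) (v x y : V) : Prop :=
  Cv D x y v ∧ ∃ z, (y, x, z) ∈ X ∧ Cv D x y z

variable [DecidableEq V] {X : Finset (V × V × V)} {D : V → V → Prop} {l : List V}

open Classical in
/-- source / sink corners at `v` -/
noncomputable def s3 (X : Finset (V × V × V)) (D : V → V → Prop) (v : V) : ℕ :=
  (X.filter (fun t => t.1 = v ∧ ¬ Cv D t.2.1 t.2.2 t.1)).card

open Classical in
/-- corners at `v` with a special opposite edge -/
noncomputable def r3 (X : Finset (V × V × V)) (D : V → V → Prop) (v : V) : ℕ :=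
  (X.filter (fun t => t.1 = v ∧ Sp3 X D t.1 t.2.1 t.2.2)).card

open Classical in
/-- covered boundary edges -/
noncomputable def cb3 (X : Finset (V × V × V)) (D : V → V → Prop) : ℕ :=
  ((bdT X).filter (fun t => Cv D t.1 t.2.1 t.2.2)).card

omit [DecidableEq V] in
theorem sosi_iff {v x y : V} (asm : ∀ x y, D x y → ¬ D y x) (h1 : Ar D v x) (h2 : Ar D v y) :
    H96.G4.SoSi D v x y ↔ ¬ Cv D x y v := by
  unfold H96.G4.SoSi Cv
  rw [not_not]
  constructor
  · rintro (⟨k1, k2⟩ | ⟨k1, k2⟩)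
    · exact ⟨fun _ => k2, fun _ => k1⟩
    · exact ⟨fun h => absurd h (asm _ _ k1), fun h => absurd h (asm _ _ k2)⟩
  · intro h
    by_cases k : D v x
    · exact Or.inl ⟨k, h.1 k⟩
    · refine Or.inr ⟨h1.resolve_left k, h2.resolve_left fun k' => k (h.2 k')⟩

open Classical in
/-- the indicator of a covered first edge -/
noncomputable def ci (D : V → V → Prop) (t : V × V × V) : ℚ :=
  if Cv D t.1 t.2.1 t.2.2 then 1 else 0

open Classical in
/-- the triple on the other side of the first edge -/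
noncomputable def flp (X : Finset (V × V × V)) (t : V × V × V) : V × V × V :=
  if h : ∃ z, (t.2.1, t.1, z) ∈ X then (t.2.1, t.1, h.choose) else t

omit [DecidableEq V] in
theorem flp_eq (hX : IsCx X) {x y z z' : V} (h' : (y, x, z') ∈ X) :
    flp X (x, y, z) = (y, x, z') := by
  unfold flp
  have h : ∃ z, ((x, y, z).2.1, (x, y, z).1, z) ∈ X := ⟨z', h'⟩
  rw [dif_pos h]
  have := h.choose_spec
  simp only at this ⊢
  rw [hX.uniq this h']

theorem sum_flp (hX : IsCx X) (f : V × V × V → ℚ) :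
    ∑ t ∈ X \ bdT X, f (flp X t) = ∑ t ∈ X \ bdT X, f t := by
  classical
  have key : ∀ t ∈ X \ bdT X, ∃ x y z z', t = (x, y, z) ∧ (x, y, z) ∈ X ∧ (y, x, z') ∈ X ∧
      flp X t = (y, x, z') := by
    rintro ⟨x, y, z⟩ ht
    obtain ⟨h1, h2⟩ := Finset.mem_sdiff.1 ht
    rw [mem_bdT hX] at h2
    push Not at h2
    obtain ⟨z', hz'⟩ := h2 h1
    exact ⟨x, y, z, z', rfl, h1, hz', flp_eq hX hz'⟩
  apply Finset.sum_nbij' (flp X) (flp X)
  · intro t ht
    obtain ⟨x, y, z, z', rfl, h1, h2, h3⟩ := key t ht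
    rw [h3, Finset.mem_sdiff, mem_bdT hX]
    exact ⟨h2, fun h => h.2 ⟨z, h1⟩⟩
  · intro t ht
    obtain ⟨x, y, z, z', rfl, h1, h2, h3⟩ := key t ht
    rw [h3, Finset.mem_sdiff, mem_bdT hX]
    exact ⟨h2, fun h => h.2 ⟨z, h1⟩⟩
  · intro t ht
    obtain ⟨x, y, z, z', rfl, h1, h2, h3⟩ := key t ht
    rw [h3, flp_eq hX h1]
  · intro t ht
    obtain ⟨x, y, z, z', rfl, h1, h2, h3⟩ := key t ht
    rw [h3, flp_eq hX h1]
  · intro t ht
    rfl

theorem bdT_sub : bdT X ⊆ X := Finset.filter_subset _ _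

/-- **the count** -/
theorem count3 (hD : Disc X) (hl : IsBd X l)
    (hc : ∀ x y z z', (x, y, z) ∈ X → (y, x, z') ∈ X → Cv D x y z ∨ Cv D x y z') :
    ∑ v ∈ verts X, ((6 : ℤ) - 2 * s3 X D v - r3 X D v) = 2 * l.length + 6 + 2 * cb3 X D := by
  classical
  have hX := hD.cx
  have hcard := card_disc hD hl
  -- the sum of `s3`
  have e1 : ((∑ v ∈ verts X, s3 X D v : ℕ) : ℚ) = X.card - ∑ t ∈ X, ci D t := by
    have h1 : ∑ v ∈ verts X, s3 X D v = (X.filter (fun t => ¬ Cv D t.2.1 t.2.2 t.1)).card := by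
      rw [Finset.card_eq_sum_card_fiberwise (f := fun t : V × V × V => t.1) (t := verts X)]
      · apply Finset.sum_congr rfl
        intro v _
        unfold s3
        congr 1
        ext t
        simp only [Finset.mem_filter]
        tauto
      · rintro ⟨x, y, z⟩ ht
        exact vert1 (Finset.mem_filter.1 ht).1
    have h2 : ((X.filter (fun t => ¬ Cv D t.2.1 t.2.2 t.1)).card : ℚ) =
        ∑ t ∈ X, (1 - ci D (t.2.1, t.2.2, t.1)) := by
      rw [Finset.card_filter]
      push_cast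
      apply Finset.sum_congr rfl
      intro t _
      unfold ci
      by_cases h : Cv D t.2.1 t.2.2 t.1
      · simp [h]
      · simp [h]
    have h3 : ∑ t ∈ X, ci D (t.2.1, t.2.2, t.1) = ∑ t ∈ X, ci D t := by
      apply Finset.sum_nbij' (fun t => (t.2.1, t.2.2, t.1)) (fun t => (t.2.2, t.1, t.2.1))
      · rintro ⟨x, y, z⟩ ht
        exact hX.rot ht
      · rintro ⟨x, y, z⟩ ht
        exact hX.rot (hX.rot ht)
      · rintro ⟨x, y, z⟩ _; rfl
      · rintro ⟨x, y, z⟩ _; rfl
      · rintro ⟨x, y, z⟩ _; rfl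
    rw [h1, h2, Finset.sum_sub_distrib, h3]
    simp
  -- the sum of `r3`
  have e2 : ((∑ v ∈ verts X, r3 X D v : ℕ) : ℚ) =
      ∑ t ∈ X \ bdT X, (ci D t + ci D (flp X t) - 1) := by
    have h1 : ∑ v ∈ verts X, r3 X D v =
        (X.filter (fun t => Sp3 X D t.1 t.2.1 t.2.2)).card := by
      rw [Finset.card_eq_sum_card_fiberwise (f := fun t : V × V × V => t.1) (t := verts X)]
      · apply Finset.sum_congr rfl
        intro v _
        unfold r3
        congr 1
        ext t
        simp only [Finset.mem_filter]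
        tauto
      · rintro ⟨x, y, z⟩ ht
        exact vert1 (Finset.mem_filter.1 ht).1
    have h2 : (X.filter (fun t => Sp3 X D t.1 t.2.1 t.2.2)).card =
        ((X \ bdT X).filter (fun t => Sp3 X D t.2.2 t.1 t.2.1)).card := by
      apply Finset.card_nbij' (fun t => (t.2.1, t.2.2, t.1)) (fun t => (t.2.2, t.1, t.2.1))
      · rintro ⟨x, y, z⟩ ht
        obtain ⟨h1, h2⟩ := Finset.mem_filter.1 (Finset.mem_coe.1 ht)
        obtain ⟨_, z', h3, _⟩ := id h2
        refine Finset.mem_coe.2 (Finset.mem_filter.2 ⟨Finset.mem_sdiff.2 ⟨hX.rot h1, ?_⟩, h2⟩)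
        rw [mem_bdT hX]
        exact fun h => h.2 ⟨z', h3⟩
      · rintro ⟨x, y, z⟩ ht
        obtain ⟨h1, h2⟩ := Finset.mem_filter.1 (Finset.mem_coe.1 ht)
        exact Finset.mem_coe.2 (Finset.mem_filter.2
          ⟨hX.rot (hX.rot (Finset.mem_sdiff.1 h1).1), h2⟩)
      · rintro ⟨x, y, z⟩ _; rfl
      · rintro ⟨x, y, z⟩ _; rfl
    rw [h1, h2, Finset.card_filter]
    push_cast
    apply Finset.sum_congr rfl
    rintro ⟨x, y, z⟩ ht
    obtain ⟨k1, k2⟩ := Finset.mem_sdiff.1 ht
    rw [mem_bdT hX] at k2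
    push Not at k2
    obtain ⟨z', hz'⟩ := k2 k1
    rw [flp_eq hX hz']
    have hcov := hc x y z z' k1 hz'
    have i1 : ci D (y, x, z') = if Cv D x y z' then 1 else 0 := by
      unfold ci
      simp only
      by_cases h : Cv D x y z'
      · rw [if_pos h, if_pos (cv_symm.1 h)]
      · rw [if_neg h, if_neg (fun h' => h (cv_symm.1 h'))]
    rw [i1]
    unfold ci
    simp only
    have hsp : Sp3 X D z x y ↔ Cv D x y z ∧ Cv D x y z' := by
      constructor
      · rintro ⟨h1, w, h2, h3⟩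
        rw [hX.uniq h2 hz'] at h3
        exact ⟨h1, h3⟩
      · rintro ⟨h1, h2⟩
        exact ⟨h1, z', hz', h2⟩
    by_cases h1 : Cv D x y z
    · by_cases h2 : Cv D x y z'
      · rw [if_pos (hsp.2 ⟨h1, h2⟩), if_pos h1, if_pos h2]
        norm_num
      · rw [if_neg (fun h => h2 (hsp.1 h).2), if_pos h1, if_neg h2]
        norm_num
    · have h2 := hcov.resolve_left h1
      rw [if_neg (fun h => h1 (hsp.1 h).1), if_neg h1, if_pos h2]
      norm_num
  have e3 : ((∑ v ∈ verts X, r3 X D v : ℕ) : ℚ) =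
      2 * ∑ t ∈ X \ bdT X, ci D t - ((X \ bdT X).card : ℚ) := by
    rw [e2, Finset.sum_sub_distrib, Finset.sum_add_distrib, sum_flp hX]
    simp only [Finset.sum_const, nsmul_eq_mul, mul_one]
    ring
  have e4 : ∑ t ∈ X \ bdT X, ci D t = ∑ t ∈ X, ci D t - cb3 X D := by
    rw [← Finset.sum_sdiff (bdT_sub (X := X)), cb3, Finset.card_filter]
    push_cast
    have : ∑ t ∈ bdT X, ci D t =
        ∑ t ∈ bdT X, (if Cv D t.1 t.2.1 t.2.2 then (1 : ℚ) else 0) := rfl
    rw [this]
    ring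
  have e5 : ((X \ bdT X).card : ℚ) = X.card - l.length := by
    rw [Finset.card_sdiff_of_subset bdT_sub, card_bdT hX hl, Nat.cast_sub]
    rw [← card_bdT hX hl]
    exact Finset.card_le_card bdT_sub
  have e6 : (∑ v ∈ verts X, ((6 : ℚ) - 2 * s3 X D v - r3 X D v)) =
      2 * l.length + 6 + 2 * cb3 X D := by
    have h1 : (∑ v ∈ verts X, ((6 : ℚ) - 2 * s3 X D v - r3 X D v)) =
        6 * (verts X).card - 2 * ((∑ v ∈ verts X, s3 X D v : ℕ) : ℚ) -
          ((∑ v ∈ verts X, r3 X D v : ℕ) : ℚ) := by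
      rw [Finset.sum_sub_distrib, Finset.sum_sub_distrib, ← Finset.mul_sum]
      simp only [Finset.sum_const, nsmul_eq_mul]
      push_cast
      ring
    have h2 : (X.card : ℚ) = 6 * (verts X).card - 3 * l.length - 6 := by exact_mod_cast hcard
    rw [h1, e1, e3, e4, e5]
    linarith
  exact_mod_cast e6

end Pool.Agent.H13.G3
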