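import Pool.Agent.H13.G3.Contr
import Pool.Agent.H72.G4.Fill

/-!
# Deleting a vertex and adding arcs; degree at least four
-/

set_option autoImplicit false

namespace Pool.Agent.H13.G3

open Relation Pool.Agent.H13.DA Pool.Agent.H72.G4 Pool.Agent.H21.G4 Pool.Agent.H13.G4

theorem other3 : ∀ t t' : Fin 3, ∃ s : Fin 3, s ≠ t ∧ s ≠ t' := by decide

/-- insertion of `v` with the in-neighbours `p`, `q` and the out-neighbour `w` -/
theorem cuts_in2 {V : Type*} {D : V → V → Prop} {O : Fin 3 → V → V → Prop} {v p q w : V}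
    (hO : ∀ i, STO (O i)) (hin : ∀ x, D x v → x = p ∨ x = q) (hout : ∀ x, D v x → x = w)
    (hp : ∃ i, O i p w) (hq : ∃ i, O i q w) (hpw : p ≠ w) (hqw : q ≠ w) : Cuts D v O := by
  have third : ∀ t t' : Fin 3, ∃ s : Fin 3, s ≠ t ∧ s ≠ t' ∧ (t ≠ t' → ∀ j, j ≠ s → j ≠ t → j = t') := by
    decide
  have three : ∀ t : Fin 3, ∃ s r : Fin 3, s ≠ t ∧ r ≠ t ∧ r ≠ s ∧
      ∀ j : Fin 3, j = t ∨ j = s ∨ j = r := by decide
  by_cases h : ∃ t, O t p w ∧ O t q w
  · obtain ⟨t, t1, t2⟩ := h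
    obtain ⟨s, r, h1, h2, h3, h4⟩ := three t
    refine ⟨fun i x => i = s ∨ (i = t ∧ O t x w), ?_, ?_, ?_⟩
    · rintro i x y - - (e | ⟨e, k⟩) hxy
      · exact Or.inl e
      · subst e
        exact Or.inr ⟨rfl, (hO _).tr _ _ _ hxy k⟩
    · intro x hx
      have hxt : O t x w := by
        rcases hin x hx with e | e
        · rw [e]; exact t1
        · rw [e]; exact t2
      refine ⟨r, ?_, ?_⟩
      · rintro (e | ⟨e, _⟩)
        · exact h3 e
        · exact h2 e
      · intro j hj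
        rcases h4 j with e | e | e
        · exact Or.inr ⟨e, hxt⟩
        · exact Or.inl e
        · exact absurd e hj
    · intro x hx
      have e := hout x hx
      subst e
      refine ⟨s, Or.inl rfl, ?_⟩
      rintro j hj (e | ⟨_, k⟩)
      · exact hj e
      · exact (hO t).irr _ k
  · obtain ⟨t1, k1⟩ := hp
    obtain ⟨t2, k2⟩ := hq
    have m1 : O t1 w q := ((hO t1).not hqw).1 fun k => h ⟨t1, k1, k⟩
    have m2 : O t2 w p := ((hO t2).not hpw).1 fun k => h ⟨t2, k, k2⟩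
    have ht : t1 ≠ t2 := by
      rintro rfl
      exact h ⟨t1, k1, k2⟩
    obtain ⟨s, s1, s2, s3⟩ := third t1 t2
    refine ⟨fun i x => i = s ∨ O i x w, ?_, ?_, ?_⟩
    · rintro i x y - - (e | k) hxy
      · exact Or.inl e
      · exact Or.inr ((hO i).tr _ _ _ hxy k)
    · intro x hx
      rcases hin x hx with e | e
      · subst e
        refine ⟨t2, ?_, ?_⟩
        · rintro (e | k)
          · exact s2 e.symm
          · exact (hO t2).asymm m2 k
        · intro j hj
          by_cases js : j = s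
          · exact Or.inl js
          · by_cases jt : j = t1
            · subst jt
              exact Or.inr k1
            · exact absurd (s3 ht j js jt) hj
      · subst e
        refine ⟨t1, ?_, ?_⟩
        · rintro (e | k)
          · exact s1 e.symm
          · exact (hO t1).asymm m1 k
        · intro j hj
          by_cases js : j = s
          · exact Or.inl js
          · have e := s3 ht j js hj
            subst e
            exact Or.inr k2
    · intro x hx
      have e := hout x hx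
      subst e
      refine ⟨s, Or.inl rfl, ?_⟩
      rintro j hj (e | k)
      · exact hj e
      · exact (hO j).irr _ k


section

variable {V : Type*} [DecidableEq V] {T : Finset (V × V × V)} {D : V → V → Prop} {a b c : V}

/-- the general frame of a reduction -/
theorem red3 (h : M3 T D a b c) {T' : Finset (V × V × V)} {D' : V → V → Prop}
    (hP : P3 T' D' [a, b, c]) (hO : Out D' a b c) (hlt : nr D' < nr D)
    (hS : ∀ x y, Tr a b c x → Tr a b c y → D' x y → D x y)
    (hext : ∀ O : Fin 3 → V → V → Prop, (∀ i, STO (O i)) → (∀ x y, D' x y → Ex O x y) →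
      ∃ O' : Fin 3 → V → V → Prop, (∀ i, STO (O' i)) ∧ (∀ x y, D x y → Ex O' x y) ∧
        ∀ i x y, Tr a b c x → Tr a b c y → (O' i x y ↔ O i x y)) : False := by
  apply h.bad
  intro O hO1 hO2
  obtain ⟨O1, b1, b2, b3⟩ := h.min T' D' a b c hP hO hlt O hO1
    (fun x y hx hy k => hO2 x y hx hy (hS x y hx hy k))
  obtain ⟨O2, c1, c2, c3⟩ := hext O1 b1 b2
  exact ⟨O2, c1, c2, fun i x y hx hy => (c3 i x y hx hy).trans (b3 i x y hx hy)⟩

/-- **Deletion with new arcs, general form.** -/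
theorem del_fill_gen3 (hM : M3 T D a b c) {v : V} {A : V → V → Prop}
    {T' : Finset (V × V × V)} (hv : ¬ Tr a b c v) (hvr : Re D v)
    (hP : P3 T' (Fil D v A) [a, b, c])
    (hA : ∀ x y, A x y → Re D x ∧ Re D y ∧ x ≠ v ∧ y ≠ v)
    (hext : ∀ O : Fin 3 → V → V → Prop, (∀ i, STO (O i)) →
      (∀ x y, Fil D v A x y → Ex O x y) → Cuts D v O) : False := by
  have hTr : ∀ u, Tr a b c u → u ≠ v := fun u hu h => hv (h ▸ hu)
  have ta : Tr a b c a := Or.inl rfl
  have tb : Tr a b c b := Or.inr (Or.inl rfl)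
  have tc : Tr a b c c := Or.inr (Or.inr rfl)
  have hne : ∀ u w, Tr a b c u → Tr a b c w → Ar D u w → Ar (Fil D v A) u w := by
    rintro u w hu hw (h | h)
    · exact Or.inl (Or.inl ⟨h, hTr u hu, hTr w hw⟩)
    · exact Or.inr (Or.inl ⟨h, hTr w hw, hTr u hu⟩)
  have hO : Out (Fil D v A) a b c := ⟨hne _ _ ta tb hM.out.1, hne _ _ tb tc hM.out.2.1,
    hne _ _ tc ta hM.out.2.2⟩
  have cx := hM.pl.disc.cx
  have hout : ∀ u w, Tr a b c u → Tr a b c w → u ≠ w → Ar D u w := by
    obtain ⟨o1, o2, o3⟩ := hM.out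
    rintro u w (rfl | rfl | rfl) (rfl | rfl | rfl) huw
    · exact absurd rfl huw
    · exact o1
    · exact ar_symm o3
    · exact ar_symm o1
    · exact absurd rfl huw
    · exact o2
    · exact o3
    · exact ar_symm o2
    · exact absurd rfl huw
  have hlt : nr (Fil D v A) < nr D := by
    refine Set.ncard_lt_ncard ?_ hM.pl.re_fin
    refine ⟨?_, fun h => ?_⟩
    · rintro u ⟨w, (h | h) | (h | h)⟩
      · exact ⟨w, Or.inl h.1⟩
      · exact (hA _ _ h).1
      · exact ⟨w, Or.inr h.1⟩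
      · exact (hA _ _ h).2.1
    · obtain ⟨w, (k | k) | (k | k)⟩ := h hvr
      · exact k.2.1 rfl
      · exact (hA _ _ k).2.2.1 rfl
      · exact k.2.2 rfl
      · exact (hA _ _ k).2.2.2 rfl
  have hs := hM.min T' _ a b c hP hO hlt
  apply hM.bad
  intro O hOs hE
  obtain ⟨O1, b1, b2, b3⟩ := hs O hOs (by
    rintro x y hx hy (h | h)
    · exact hE x y hx hy h.1
    · rcases eq_or_ne x y with rfl | hxy
      · exact absurd (Or.inr h) (hP.asymm x x (Or.inr h))
      · rcases hout x y hx hy hxy with k | k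
        · exact hE x y hx hy k
        · exact absurd (Or.inl ⟨k, hTr y hy, hTr x hx⟩) (hP.asymm x y (Or.inr h)))
  obtain ⟨P, p1, p2, p3⟩ := hext O1 b1 b2
  obtain ⟨O2, c1, c2, c3⟩ := insert_ex (D := D) (S := Tr a b c) b1
    (fun h => hM.pl.asymm v v h h) (fun x y h => b2 x y (Or.inl h)) hv P p1 p2 p3
  exact ⟨O2, c1, c2, fun i x y hx hy => (c3 i x y hx hy).trans (b3 i x y hx hy)⟩


/-- the fan at `v` towards a neighbour -/
theorem M3.fan [Infinite V] (h : M3 T D a b c) {v p : V} (hv : ¬ Tr a b c v) (hp : Ar D v p) :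
    ∃ T' : Finset (V × V × V), Disc T' ∧ (∀ l, IsBd T l → IsBd T' l) ∧ v ∉ verts T' ∧
      ∀ x y, Adj T' x y ↔ (Ar D x y ∧ x ≠ v ∧ y ≠ v) ∨ (x = p ∧ Ar D v y ∧ y ≠ p) ∨
        (y = p ∧ Ar D v x ∧ x ≠ p) := by
  obtain ⟨T', d1, d2, d3, d4⟩ := fanT T [a, b, c] v p h.pl.disc h.pl.bd (h.mem hp).1 (by
    intro k
    apply hv
    simpa [Tr] using k) ((h.ar v p).1 hp) (by
    intro m hm1 hm2 hm3
    rcases h.fc v p m hp ((h.ar p m).2 hm3) (ar_symm ((h.ar v m).2 hm1)) with k | ⟨k, _⟩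
    · exact k
    · exact absurd k hv)
  refine ⟨T', d1, d2, d3, fun x y => ?_⟩
  rw [d4, h.ar, h.ar, h.ar]

/-- **Deletion with new arcs at one neighbour `p` of `v` (star fill).** -/
theorem del_fill3 [Infinite V] (h : M3 T D a b c) {v p : V}
    {A : V → V → Prop} (hv : ¬ Tr a b c v) (hp : Ar D v p)
    (hA : ∀ x y, A x y → (x = p ∧ Ar D v y ∧ y ≠ p) ∨ (y = p ∧ Ar D v x ∧ x ≠ p))
    (has : ∀ x y, Fil D v A x y → ¬ Fil D v A y x)
    (hext : ∀ O : Fin 3 → V → V → Prop, (∀ i, STO (O i)) →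
      (∀ x y, Fil D v A x y → Ex O x y) → Cuts D v O) : False := by
  obtain ⟨T', d1, d2, d3, d4⟩ := h.fan hv hp
  have hpv : p ≠ v := (h.ne hp).symm
  refine del_fill_gen3 h (T' := T') (A := A) hv (ar_re hp).1 ⟨d1, d2 _ h.pl.bd, ?_, has⟩ ?_ hext
  · rintro x y (k | k)
    · exact (d4 x y).2 (Or.inl ⟨Or.inl k.1, k.2.1, k.2.2⟩)
    · rcases hA x y k with ⟨rfl, h1, h2⟩ | ⟨rfl, h1, h2⟩
      · exact (d4 _ y).2 (Or.inr (Or.inl ⟨rfl, h1, h2⟩))
      · exact (d4 x _).2 (Or.inr (Or.inr ⟨rfl, h1, h2⟩))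
  · intro x y k
    rcases hA x y k with ⟨rfl, h1, h2⟩ | ⟨rfl, h1, h2⟩
    · exact ⟨(ar_re hp).2, (ar_re h1).2, hpv, (h.ne h1).symm⟩
    · exact ⟨(ar_re h1).2, (ar_re hp).2, (h.ne h1).symm, hpv⟩

/-- no inner vertex with two in-neighbours (possibly equal) and one out-neighbour, all adjacent -/
theorem red_in2' [Infinite V] (h : M3 T D a b c) {v p q w : V} (hv : ¬ Tr a b c v)
    (hin : ∀ x, D x v → x = p ∨ x = q) (hout : ∀ x, D v x → x = w) (hw : D v w)
    (hpw : Ar D p w) (hqw : Ar D q w) (hpv : p ≠ v) (hqv : q ≠ v) : False := by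
  refine del_fill3 h (v := v) (p := w) (A := fun _ _ => False) hv (Or.inl hw)
    (fun _ _ k => k.elim) ?_ ?_
  · rintro x y (k | k) (k' | k')
    · exact h.pl.asymm _ _ k.1 k'.1
    · exact k'
    · exact k
    · exact k
  · intro O hO hE
    have hwv : w ≠ v := (h.ne (Or.inl hw)).symm
    have key : ∀ z, Ar D z w → z ≠ v → ∃ i, O i z w := by
      intro z hz hzv
      rcases hz with k | k
      · obtain ⟨i, h1, h2⟩ := hE z w (Or.inl ⟨k, hzv, hwv⟩)
        obtain ⟨j, hj⟩ := exists_ne i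
        exact ⟨j, h2 j hj⟩
      · obtain ⟨i, h1, -⟩ := hE w z (Or.inl ⟨k, hwv, hzv⟩)
        exact ⟨i, h1⟩
    exact cuts_in2 hO hin hout (key p hpw hpv) (key q hqw hqv) (h.ne hpw) (h.ne hqw)

end

end Pool.Agent.H13.G3
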