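import Pool.Agent.H13.G3.Sym
import Pool.Agent.H13.G3.Count

/-!
# The rotation at an inner vertex
-/

set_option autoImplicit false

namespace Pool.Agent.H13.G3

open Relation Pool.Agent.H13.DA Pool.Agent.H72.G4 Pool.Agent.H21.G4 Pool.Agent.H13.G4

variable {V : Type*} [DecidableEq V] {T : Finset (V × V × V)} {D : V → V → Prop} {a b c : V}

/-- the rotation at `v` : `x 0, .., x n` are the neighbours in cyclic order -/
structure Rot3 (T : Finset (V × V × V)) (D : V → V → Prop) (v : V) (n : ℕ)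
    (x : Fin (n + 1) → V) : Prop where
  inj : Function.Injective x
  nb : ∀ u, Ar D v u ↔ ∃ i, u = x i
  tr : ∀ i, (v, x i, x (i + 1)) ∈ T

theorem M3.re (h : M3 T D a b c) {v : V} (hv : v ∈ verts T) : Re D v := by
  obtain ⟨u, hu⟩ := (verts_adj h.pl.disc.cx).1 hv
  exact ⟨u, (h.ar v u).2 hu⟩

theorem M3.mem_re (h : M3 T D a b c) {v : V} (hv : Re D v) : v ∈ verts T := by
  obtain ⟨u, hu⟩ := hv
  exact (h.mem hu).1

/-- **The rotation at an inner vertex exists.** -/
theorem exists_rot3 [Infinite V] (h : M3 T D a b c) {v : V} (hv : v ∈ verts T)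
    (hv' : ¬ Tr a b c v) : ∃ (n : ℕ) (x : Fin (n + 1) → V), 2 ≤ n ∧ Rot3 T D v n x := by
  have cx := h.pl.disc.cx
  have hvl : v ∉ [a, b, c] := by
    intro k
    apply hv'
    simpa [Tr] using k
  obtain ⟨L, l1, l2, l3, l4, l5⟩ := Pool.Agent.H13.G4.link h.pl.disc h.pl.bd hv hvl
  obtain ⟨n, hn⟩ : ∃ n, L.length = n + 1 := ⟨L.length - 1, by omega⟩
  let x : Fin (n + 1) → V := fun i => L[i.val]'(by have := i.isLt; omega)
  have hcyc : ∀ i, Cyc L (x i) (x (i + 1)) := fun i => cyc_getElem L n hn i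
  refine ⟨n, x, by omega, ?_, ?_, ?_⟩
  · intro i j hij
    have := (List.Nodup.getElem_inj_iff l1).1 hij
    exact Fin.ext this
  · intro y
    rw [h.ar v y, l5 y]
    constructor
    · intro hy
      obtain ⟨i, hi, hi2⟩ := List.getElem_of_mem hy
      exact ⟨⟨i, by omega⟩, hi2.symm⟩
    · rintro ⟨i, rfl⟩
      exact List.getElem_mem _
  · intro i
    exact (l4 _ _).2 (hcyc i)

theorem Rot3.shift {v : V} {n : ℕ} {x : Fin (n + 1) → V} (R : Rot3 T D v n x)
    (k : Fin (n + 1)) : Rot3 T D v n (fun i => x (i + k)) := by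
  refine ⟨?_, ?_, ?_⟩
  · intro i j hij
    have := R.inj hij
    exact add_right_cancel this
  · intro u
    rw [R.nb u]
    constructor
    · rintro ⟨i, rfl⟩
      exact ⟨i - k, by simp⟩
    · rintro ⟨i, rfl⟩
      exact ⟨_, rfl⟩
  · intro i
    have := R.tr (i + k)
    have e : i + k + 1 = i + 1 + k := by
      rw [add_assoc, add_comm k 1, ← add_assoc]
    rw [e] at this
    exact this

theorem Rot3.sp {v : V} {n : ℕ} {x : Fin (n + 1) → V} (R : Rot3 T D v n x) (i : Fin (n + 1)) :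
    Ar D v (x i) := (R.nb _).2 ⟨i, rfl⟩

/-- the ring edges are arcs -/
theorem Rot3.ring (h : M3 T D a b c) {v : V} {n : ℕ} {x : Fin (n + 1) → V}
    (R : Rot3 T D v n x) (i : Fin (n + 1)) : Ar D (x i) (x (i + 1)) :=
  (h.ar _ _).2 (Or.inl ⟨v, h.pl.disc.cx.rot (R.tr i)⟩)

/-- neighbours of an inner vertex which are adjacent are consecutive -/
theorem Rot3.cons (h : M3 T D a b c) {v : V} (hv' : ¬ Tr a b c v) {n : ℕ}
    {x : Fin (n + 1) → V} (R : Rot3 T D v n x) {i j : Fin (n + 1)} (hij : Ar D (x i) (x j)) :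
    j = i + 1 ∨ i = j + 1 := by
  have cx := h.pl.disc.cx
  rcases h.fc v (x i) (x j) (R.sp i) hij (ar_symm (R.sp j)) with (k | k) | ⟨k, _⟩
  · exact Or.inl (R.inj (cx.uniq k (R.tr i)))
  · exact Or.inr (R.inj (cx.uniq k (R.tr j)))
  · exact absurd k hv'

/-- **every inner vertex has degree at least four** -/
theorem Rot3.deg [Infinite V] (h : M3 T D a b c) {v : V} (hv : v ∈ verts T)
    (hv' : ¬ Tr a b c v) {n : ℕ} {x : Fin (n + 1) → V} (hn : 2 ≤ n)
    (R : Rot3 T D v n x) : 3 ≤ n := by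
  by_contra hcon
  have e : n = 2 := by omega
  subst e
  refine no_deg3 h (x := x 0) (y := x 1) (z := x 2) hv' hv ?_ (R.ring h 0) (R.ring h 1)
    (R.ring h 2)
  intro u
  rw [R.nb u]
  constructor
  · rintro ⟨i, rfl⟩
    fin_cases i
    · exact Or.inl rfl
    · exact Or.inr (Or.inl rfl)
    · exact Or.inr (Or.inr rfl)
  · rintro (rfl | rfl | rfl)
    · exact ⟨_, rfl⟩
    · exact ⟨_, rfl⟩
    · exact ⟨_, rfl⟩

/-- COVER at a spoke -/
theorem Rot3.cover [Infinite V] (h : M3 T D a b c) {v : V} (hv' : ¬ Tr a b c v) {n : ℕ}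
    {x : Fin (n + 1) → V} (R : Rot3 T D v n x) (i : Fin (n + 1)) :
    Cv D v (x (i + 1)) (x i) ∨ Cv D v (x (i + 1)) (x (i + 1 + 1)) := by
  have cx := h.pl.disc.cx
  by_contra hcon
  unfold Cv at hcon
  push Not at hcon
  obtain ⟨h1, h2⟩ := hcon
  exact no_contract3 h hv' (x := x (i + 1)) (y := v) (rot3 cx (R.tr i)).2 (R.tr (i + 1))
    ⟨fun k => by tauto, fun k => by tauto⟩ ⟨fun k => by tauto, fun k => by tauto⟩

end Pool.Agent.H13.G3
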