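import Pool.Agent.H13.G3.Fill
import Pool.Agent.H80.G4.Mir

/-!
# Reversal and mirror image
-/

set_option autoImplicit false

namespace Pool.Agent.H13.G3

open Relation Pool.Agent.H13.DA Pool.Agent.H72.G4 Pool.Agent.H80.G4

variable {V : Type*} {T : Finset (V × V × V)} {D : V → V → Prop} {a b c : V}

theorem p3_rev {l : List V} (h : P3 T D l) : P3 T (Rev D) l where
  disc := h.disc
  bd := h.bd
  adj := fun x y hxy => (h.adj y x hxy).symm
  asymm := fun x y hxy => h.asymm y x hxy

theorem m3_rev (h : M3 T D a b c) : M3 T (Rev D) a b c where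
  pl := p3_rev h.pl
  ar := fun x y => ar_rev.trans (h.ar x y)
  bad := fun hs => h.bad (solv_rev.1 hs)
  fc := fun x y z h1 h2 h3 => h.fc x y z (ar_rev.1 h1) (ar_rev.1 h2) (ar_rev.1 h3)
  io := fun v hv hv' => ⟨(h.io v hv hv').2, (h.io v hv hv').1⟩
  min := fun T' D' a' b' c' h1 h2 h3 => solv_rev.1 (h.min T' (Rev D') a' b' c' (p3_rev h1)
    (out_rev.2 h2) (by rwa [nr_rev, ← nr_rev D]))

variable [DecidableEq V]

omit [DecidableEq V] in
theorem p3_mir {l : List V} (h : P3 T D l) : P3 (Mir T) D l.reverse where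
  disc := disc_mir h.disc
  bd := isBd_mir h.disc.cx h.bd
  adj := fun x y k => (adj_mir h.disc.cx).2 (h.adj x y k)
  asymm := h.asymm

omit [DecidableEq V] in
theorem m3_mir (h : M3 T D a b c) : M3 (Mir T) D c b a where
  pl := p3_mir h.pl
  ar := fun x y => (h.ar x y).trans (adj_mir h.pl.disc.cx).symm
  bad := by rw [tr_mir']; exact h.bad
  fc := fun x y z h1 h2 h3 => by
    rw [face_mir, tr_mir']
    exact h.fc x y z h1 h2 h3
  io := fun v hv hv' => by
    rw [verts_mir] at hv
    exact h.io v hv (fun k => hv' (tr_mir.2 k))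
  min := h.min

/-- no inner vertex with two out-neighbours (possibly equal) and one in-neighbour, all adjacent -/
theorem red_out2' [Infinite V] (h : M3 T D a b c) {v p q w : V} (hv : ¬ Tr a b c v)
    (hout : ∀ x, D v x → x = p ∨ x = q) (hin : ∀ x, D x v → x = w) (hw : D w v)
    (hpw : Ar D p w) (hqw : Ar D q w) (hpv : p ≠ v) (hqv : q ≠ v) : False :=
  red_in2' (m3_rev h) hv hout hin hw (ar_rev.2 hpw) (ar_rev.2 hqw) hpv hqv

/-- no inner vertex with three pairwise adjacent neighbours -/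
theorem no_deg3 [Infinite V] (h : M3 T D a b c) {v x y z : V} (hv : ¬ Tr a b c v)
    (hvT : v ∈ verts T) (hN : ∀ u, Ar D v u ↔ u = x ∨ u = y ∨ u = z) (h1 : Ar D x y)
    (h2 : Ar D y z) (h3 : Ar D z x) : False := by
  obtain ⟨⟨p, hp⟩, ⟨q, hq⟩⟩ := h.io v hvT hv
  -- a symmetric argument on the three neighbours
  have main : ∀ x y z : V, (∀ u, Ar D v u ↔ u = x ∨ u = y ∨ u = z) → Ar D x y → Ar D y z →
      Ar D z x → D x v → D v y → False := by
    intro x y z hN h1 h2 h3 hx hy
    have vx : x ≠ v := h.ne (Or.inl hx)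
    have vy : y ≠ v := (h.ne (Or.inl hy)).symm
    have vz : Ar D v z := (hN z).2 (Or.inr (Or.inr rfl))
    rcases vz with k | k
    · -- `v → z`: out-neighbours `y`, `z`
      refine red_out2' h (v := v) (p := y) (q := z) (w := x) hv ?_ ?_ hx (ar_symm h1) h3 vy
        (h.ne (Or.inl k)).symm
      · intro u hu
        rcases (hN u).1 (Or.inl hu) with rfl | rfl | rfl
        · exact absurd hu (h.pl.asymm _ _ hx)
        · exact Or.inl rfl
        · exact Or.inr rfl
      · intro u hu
        rcases (hN u).1 (Or.inr hu) with rfl | rfl | rfl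
        · rfl
        · exact absurd hu (h.pl.asymm _ _ hy)
        · exact absurd hu (h.pl.asymm _ _ k)
    · refine red_in2' h (v := v) (p := x) (q := z) (w := y) hv ?_ ?_ hy h1 (ar_symm h2) vx
        (h.ne (Or.inl k))
      · intro u hu
        rcases (hN u).1 (Or.inr hu) with rfl | rfl | rfl
        · exact Or.inl rfl
        · exact absurd hu (h.pl.asymm _ _ hy)
        · exact Or.inr rfl
      · intro u hu
        rcases (hN u).1 (Or.inl hu) with rfl | rfl | rfl
        · exact absurd hu (h.pl.asymm _ _ hx)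
        · rfl
        · exact absurd hu (h.pl.asymm _ _ k)
  have perm1 : ∀ u, Ar D v u ↔ u = y ∨ u = z ∨ u = x := fun u => (hN u).trans (by tauto)
  have perm2 : ∀ u, Ar D v u ↔ u = z ∨ u = x ∨ u = y := fun u => (hN u).trans (by tauto)
  have perm3 : ∀ u, Ar D v u ↔ u = x ∨ u = z ∨ u = y := fun u => (hN u).trans (by tauto)
  have perm4 : ∀ u, Ar D v u ↔ u = y ∨ u = x ∨ u = z := fun u => (hN u).trans (by tauto)
  have perm5 : ∀ u, Ar D v u ↔ u = z ∨ u = y ∨ u = x := fun u => (hN u).trans (by tauto)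
  have asm := h.pl.asymm
  rcases (hN p).1 (Or.inr hp) with rfl | rfl | rfl <;>
    rcases (hN q).1 (Or.inl hq) with rfl | rfl | rfl
  · exact asm _ _ hp hq
  · exact main _ _ _ hN h1 h2 h3 hp hq
  · exact main _ _ _ perm3 (ar_symm h3) (ar_symm h2) (ar_symm h1) hp hq
  · exact main _ _ _ perm4 (ar_symm h1) (ar_symm h3) (ar_symm h2) hp hq
  · exact asm _ _ hp hq
  · exact main _ _ _ perm1 h2 h3 h1 hp hq
  · exact main _ _ _ perm2 h3 h1 h2 hp hq
  · exact main _ _ _ perm5 (ar_symm h2) (ar_symm h1) (ar_symm h3) hp hq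
  · exact asm _ _ hp hq

end Pool.Agent.H13.G3
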